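import Mathlib
import Pool.Graph.R_seed8.H448R3.Dec

/-!
# One set with small gamma value computes a set with gamma value zero, with a rate
-/

set_option autoImplicit false

namespace Pool.Agent.Results.MP_349b57_lc.OneSetRate

open Pool.Agent.H448R3 Pool.Agent.Helper743

theorem bit_eq (b : Bool) : (if b then 1 else 0) = bit b := by cases b <;> rfl

theorem agree_card (Y C : ℕ → Bool) (n : ℕ) :
    ((Finset.range n).filter (fun k => Y k = C k)).card =
      er (fun j => bit (Y j)) (fun j => bit (!(C j))) n := by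
  induction n with
  | zero => rfl
  | succ n ih =>
    rw [Finset.range_add_one, Finset.filter_insert, er_succ, ← ih]
    by_cases h : Y n = C n
    · rw [if_pos h, Finset.card_insert_of_notMem (by simp), if_neg]
      rw [h]
      cases C n <;> simp [bit]
    · rw [if_neg h, if_pos]
      · rfl
      · revert h
        cases Y n <;> cases C n <;> simp [bit]

theorem dens_nonneg (Y C : ℕ → Bool) (n : ℕ) :
    0 ≤ ((((Finset.range n).filter (fun k => Y k = C k)).card : ℝ) / (n : ℝ)) := by positivity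

theorem dens_le_one (Y C : ℕ → Bool) (n : ℕ) :
    ((((Finset.range n).filter (fun k => Y k = C k)).card : ℝ) / (n : ℝ)) ≤ 1 := by
  refine div_le_one_of_le₀ ?_ (Nat.cast_nonneg n)
  have h1 : ((Finset.range n).filter (fun k => Y k = C k)).card ≤ n := by
    refine (Finset.card_filter_le _ _).trans ?_
    simp
  exact_mod_cast h1

theorem bdd_ge (Y C : ℕ → Bool) : Filter.IsBoundedUnder (· ≥ ·) Filter.atTop
    (fun n : ℕ => ((((Finset.range n).filter (fun k => Y k = C k)).card : ℝ) / (n : ℝ))) :=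
  ⟨0, Filter.eventually_map.2 (Filter.Eventually.of_forall fun n => dens_nonneg Y C n)⟩

theorem bdd_le (Y C : ℕ → Bool) : Filter.IsBoundedUnder (· ≤ ·) Filter.atTop
    (fun n : ℕ => ((((Finset.range n).filter (fun k => Y k = C k)).card : ℝ) / (n : ℝ))) :=
  ⟨1, Filter.eventually_map.2 (Filter.Eventually.of_forall fun n => dens_le_one Y C n)⟩

/-- the allocation lemma of the library with an additional bound on the length -/
theorem alloc2 {O : Set (ℕ →. ℕ)} {p v : ℕ → ℕ} (hp : RecT O p) (hv : RecT O v) (t0 : ℕ)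
    (hcnt : ∀ t, t0 ≤ t → cnt p (4 ^ (t + 1)) (4 ^ (t + 2)) ≤ 2 ^ (t + 2)) :
    ∃ y : ℕ → ℕ, RecT O y ∧ (∀ x, y x ≤ 1) ∧ ∀ a : ℕ → ℕ, (∀ x, a x ≤ 1) →
      (∀ n, ∃ t, n ≤ t ∧ ∃ k, 4 ^ (t + 1) ≤ k ∧ k < 4 ^ (t + 2) ∧ p k = 1 ∧
        ∀ x < 2 ^ (4 ^ (t + 1)), v (Nat.pair k x) = a x) →
      ∀ n, ∃ b t, n ≤ t ∧ t ≤ b ∧ b ≤ 4 ^ (t + 1) ∧ er y a (2 ^ b) * 2 ^ t ≤ 2 ^ b := by
  refine ⟨fun x => v (Nat.pair (slotK p x) x) % 2, ?_, ?_, ?_⟩
  · have h1 : Computable fun x : ℕ => x % 2 := cmod Computable.id (Computable.const 2)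
    exact (Computable.recT h1).comp
      (hv.comp (RecT.pair (slotK_rec hp) (Computable.recT Computable.id)))
  · intro x
    exact Nat.lt_succ_iff.1 (Nat.mod_lt _ (by norm_num))
  · intro a ha hinf n
    obtain ⟨t, ht, k, hk1, hk2, hpk, hvk⟩ := hinf (n + t0 + 1)
    have hi : cnt p (4 ^ (t + 1)) k < 2 ^ (t + 2) :=
      lt_of_lt_of_le (cnt_lt hk2 hk1 hpk) (hcnt t (by omega))
    set i := cnt p (4 ^ (t + 1)) k with hidef
    have hfit := slots_fit t
    have hit : (i + 1) * t ≤ 2 ^ (t + 2) * t := Nat.mul_le_mul_right t hi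
    have hexp : (i + 1) * t = i * t + t := by ring
    have hagree : ∀ x, 2 ^ (4 ^ t + i * t) ≤ x → x < 2 ^ (4 ^ t + (i + 1) * t) →
        v (Nat.pair (slotK p x) x) % 2 = a x := by
      intro x hx1 hx2
      have hx0 : x ≠ 0 := by
        have : 0 < 2 ^ (4 ^ t + i * t) := by positivity
        omega
      have hs1 : 4 ^ t + i * t ≤ Nat.log 2 x := Nat.le_log_of_pow_le (by norm_num) hx1
      have hs2 : Nat.log 2 x < 4 ^ t + (i + 1) * t := Nat.log_lt_of_lt_pow hx0 hx2
      have hT : slotT x = t := by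
        unfold slotT
        refine (Nat.log_eq_iff (Or.inr ⟨by norm_num, ?_⟩)).2 ⟨by omega, by omega⟩
        have : 0 < 4 ^ t := by positivity
        omega
      have hI : slotI x = i := by
        unfold slotI
        rw [hT]
        exact Nat.div_eq_of_lt_le (by omega) (by omega)
      have hK : slotK p x = k := by
        refine slotK_eq ?_ ?_ hpk ?_
        · rw [hT]; exact hk1
        · rw [hT]; exact hk2
        · rw [hT, hI]
      have hx3 : x < 2 ^ (4 ^ (t + 1)) :=
        lt_of_lt_of_le hx2 (Nat.pow_le_pow_right (by norm_num) (by omega))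
      rw [hK, hvk x hx3]
      exact Nat.mod_eq_of_lt (Nat.lt_succ_of_le (ha x))
    refine ⟨4 ^ t + (i + 1) * t, t, by omega, by omega, by omega, ?_⟩
    have hle : 2 ^ (4 ^ t + i * t) ≤ 2 ^ (4 ^ t + (i + 1) * t) :=
      Nat.pow_le_pow_right (by norm_num) (by omega)
    have h1 := er_const (f := fun x => v (Nat.pair (slotK p x) x) % 2) (g := a) hle hagree
    rw [h1]
    have h2 : 2 ^ (4 ^ t + (i + 1) * t) = 2 ^ (4 ^ t + i * t) * 2 ^ t := by
      rw [← pow_add]; congr 1; ring
    rw [h2]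
    exact Nat.mul_le_mul_right _ (er_le _ _ _)

/-- the relative frequency of `k < n` with `Y k = C k` -/
noncomputable def agree (Y C : ℕ → Bool) (n : ℕ) : ℝ :=
  (((Finset.range n).filter (fun k => Y k = C k)).card : ℝ) / (n : ℝ)

/-- `Y` is computable from `X` -/
def ReducibleTo (Y X : ℕ → Bool) : Prop :=
  TuringReducible (fun n => Part.some (if Y n then 1 else 0))
    (fun n => Part.some (if X n then 1 else 0))

/-- the set computed from `Y` -/
theorem main (Y0 : ℕ → Bool)
    (hd : ∀ C : ℕ → Bool, Computable C → Filter.liminf (agree Y0 C) Filter.atTop < 1 / 128) :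
    ∃ Z : ℕ → Bool, ReducibleTo Z Y0 ∧ ∀ C : ℕ → Bool, Computable C → ∀ n : ℕ, ∃ b t : ℕ,
      n ≤ t ∧ t ≤ b ∧ b ≤ 4 ^ (t + 1) ∧
      ((Finset.range (2 ^ b)).filter (fun k => Z k = C k)).card * 2 ^ t ≤ 2 ^ b := by
  have hred : ∀ Y : ℕ → Bool, TuringReducible (fun n => Part.some (if Y n then 1 else 0))
      (fun n => Part.some (if Y0 n then 1 else 0)) ↔
      TR (fun n => bit (Y n)) (fun n => bit (Y0 n)) := by
    intro Y
    rw [TR_iff]
    have e1 : ((fun n => Part.some (if Y n then 1 else 0)) : ℕ →. ℕ) =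
        ((fun n => bit (Y n) : ℕ → ℕ) : ℕ →. ℕ) := by
      funext n; rw [bit_eq]; rfl
    have e2 : ((fun n => Part.some (if Y0 n then 1 else 0)) : ℕ →. ℕ) =
        ((fun n => bit (Y0 n) : ℕ → ℕ) : ℕ →. ℕ) := by
      funext n; rw [bit_eq]; rfl
    rw [e1, e2]
  have hy0 := (hred Y0).1 (TuringReducible.refl _)
  obtain ⟨cw, hcw, hcode⟩ := exists_cw
  -- the hypothesis in terms of `er`
  have hy : ∀ D : ℕ → ℕ, Computable D → (∀ j, D j ≤ 1) → ∀ n, ∃ m, n ≤ m ∧
      er (fun j => bit (Y0 j)) D m * 128 < m := by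
    intro D hD hD1 n
    let C : ℕ → Bool := fun j => !(D j == 1)
    have hC : Computable C := cnot (cbeqN hD (Computable.const 1))
    have hDC : ∀ j, bit (!(C j)) = D j := by
      intro j
      show bit (!(!(D j == 1))) = D j
      rw [Bool.not_not]
      have := hD1 j
      rcases Nat.le_one_iff_eq_zero_or_eq_one.1 this with h | h
      · rw [h]; rfl
      · rw [h]; rfl
    have h2 : Filter.liminf
        (fun n : ℕ => ((((Finset.range n).filter (fun k => Y0 k = C k)).card : ℝ) / (n : ℝ)))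
        Filter.atTop < 1 / 128 := hd C hC
    have h3 := Filter.frequently_lt_of_liminf_lt (bdd_le Y0 C).isCoboundedUnder_ge h2
    obtain ⟨m, hm, hlt⟩ := (Filter.frequently_atTop.1 h3) (n + 1)
    refine ⟨m, by omega, ?_⟩
    rw [agree_card] at hlt
    have h4 : er (fun j => bit (Y0 j)) (fun j => bit (!(C j))) m =
        er (fun j => bit (Y0 j)) D m := er_congr (fun _ _ => rfl) (fun j _ => hDC j)
    rw [h4] at hlt
    have hmpos : (0 : ℝ) < m := by
      have : 0 < m := by omega
      exact_mod_cast this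
    rw [div_lt_iff₀ hmpos] at hlt
    have h5 : ((er (fun j => bit (Y0 j)) D m : ℕ) : ℝ) * 128 < m := by linarith
    exact_mod_cast h5
  have hF : TR (decK cw (fun j => bit (Y0 j))) (fun n => bit (Y0 n)) := decK_rec hcw hy0
  obtain ⟨p, v, hp, hv, ⟨t0, hcnt⟩, hpv⟩ := dich hF (fun W hW hW1 n => ioe hcw hcode hy W hW hW1 n)
  obtain ⟨y, hyr, hy1, hya⟩ := alloc2 hp hv t0 hcnt
  let Y : ℕ → Bool := fun n => (y n == 1)
  have hYy : ∀ j, bit (Y j) = y j := by
    intro j
    show bit (y j == 1) = y j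
    rcases Nat.le_one_iff_eq_zero_or_eq_one.1 (hy1 j) with h | h
    · rw [h]; rfl
    · rw [h]; rfl
  refine ⟨Y, (hred Y).2 ?_, ?_⟩
  · have e1 : (fun n => bit (Y n)) = y := funext hYy
    rw [e1]
    exact hyr
  · intro C hC n
    have ha : Computable fun j => bit (!(C j)) := cbit (cnot hC)
    have ha1 : ∀ j, (fun j => bit (!(C j))) j ≤ 1 := by
      intro j
      show bit _ ≤ 1
      cases (!(C j)) <;> simp [bit]
    obtain ⟨b, t, hnt, htb, hbt, herr⟩ := hya _ ha1 (hpv _ ha ha1) n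
    refine ⟨b, t, hnt, htb, hbt, ?_⟩
    rw [agree_card]
    have h4 : er (fun j => bit (Y j)) (fun j => bit (!(C j))) (2 ^ b) =
        er y (fun j => bit (!(C j))) (2 ^ b) := er_congr (fun j _ => hYy j) (fun _ _ => rfl)
    rw [h4]
    exact herr

/-- **A single set `Y` with `γ(Y) < 1/128` suffices, and the value `0` is attained with a rate.**
Let `Y ≤_T X`, and suppose that no computable set agrees with `Y` on a set of lower density at
least `1/128`.  Then there is `Z`, computable from `Y` (and from `X`), such that for every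
computable set `C` and for infinitely many `b` there are at most `2 · 2^b / √b` numbers `k < 2^b`
with `Z k = C k`.  In particular `Z` agrees with every computable set on lower density `0`. -/
theorem result (X Y : ℕ → Bool) (hYX : ReducibleTo Y X)
    (hY : ∀ C : ℕ → Bool, Computable C → Filter.liminf (agree Y C) Filter.atTop < 1 / 128) :
    ∃ Z : ℕ → Bool, ReducibleTo Z Y ∧ ReducibleTo Z X ∧
      (∀ C : ℕ → Bool, Computable C → ∀ n : ℕ, ∃ b : ℕ, n ≤ b ∧
        agree Z C (2 ^ b) * Real.sqrt b ≤ 2) ∧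
      ∀ C : ℕ → Bool, Computable C → Filter.liminf (agree Z C) Filter.atTop = 0 := by
  obtain ⟨Z, hZ, h⟩ := main Y hY
  refine ⟨Z, hZ, hZ.trans hYX, fun C hC n => ?_, fun C hC => ?_⟩
  · obtain ⟨b, t, hnt, htb, hbt, h1⟩ := h C hC n
    refine ⟨b, hnt.trans htb, ?_⟩
    have hs : Real.sqrt b ≤ 2 * 2 ^ t := by
      rw [Real.sqrt_le_left (by positivity)]
      have : (b : ℝ) ≤ 4 ^ (t + 1) := by exact_mod_cast hbt
      refine this.trans (le_of_eq ?_)
      rw [mul_pow, ← pow_mul, mul_comm t 2, pow_mul, pow_succ]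
      norm_num
      ring
    unfold agree
    have hpos : (0 : ℝ) < ((2 ^ b : ℕ) : ℝ) := by positivity
    rw [div_mul_eq_mul_div, div_le_iff₀ hpos]
    have h2 : ((((Finset.range (2 ^ b)).filter (fun k => Z k = C k)).card : ℕ) : ℝ) * 2 ^ t ≤
        ((2 ^ b : ℕ) : ℝ) := by exact_mod_cast h1
    have h3 : (0 : ℝ) ≤ ((((Finset.range (2 ^ b)).filter (fun k => Z k = C k)).card : ℕ) : ℝ) :=
      Nat.cast_nonneg _
    calc _ ≤ ((((Finset.range (2 ^ b)).filter (fun k => Z k = C k)).card : ℕ) : ℝ) *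
          (2 * 2 ^ t) := mul_le_mul_of_nonneg_left hs h3
      _ ≤ 2 * ((2 ^ b : ℕ) : ℝ) := by linarith
  · refine le_antisymm ?_ ?_
    · refine le_of_forall_pos_le_add ?_
      intro δ hδ
      rw [zero_add]
      refine Filter.liminf_le_of_frequently_le ?_ (bdd_ge Z C)
      rw [Filter.frequently_atTop]
      intro n
      obtain ⟨N, hN⟩ := exists_nat_gt (1 / δ)
      obtain ⟨b, t, hnt, htb, -, h1⟩ := h C hC (n + N)
      have hb : b < 2 ^ b := Nat.lt_pow_self (by norm_num)
      have ht : t < 2 ^ t := Nat.lt_pow_self (by norm_num)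
      refine ⟨2 ^ b, by omega, ?_⟩
      have hpos : (0 : ℝ) < ((2 ^ b : ℕ) : ℝ) := by positivity
      unfold agree
      rw [div_le_iff₀ hpos]
      have h5 : ((((Finset.range (2 ^ b)).filter (fun k => Z k = C k)).card : ℕ) : ℝ) *
          ((2 ^ t : ℕ) : ℝ) ≤ ((2 ^ b : ℕ) : ℝ) := by exact_mod_cast h1
      have h6 : (1 : ℝ) ≤ δ * ((2 ^ t : ℕ) : ℝ) := by
        have h7 : (1 / δ : ℝ) < ((2 ^ t : ℕ) : ℝ) := by
          refine lt_trans hN ?_
          have : N < 2 ^ t := by omega
          exact_mod_cast this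
        rw [div_lt_iff₀ hδ] at h7
        linarith
      have h8 : (0 : ℝ) ≤ ((((Finset.range (2 ^ b)).filter (fun k => Z k = C k)).card : ℕ) : ℝ) :=
        Nat.cast_nonneg _
      generalize ((((Finset.range (2 ^ b)).filter (fun k => Z k = C k)).card : ℕ) : ℝ) = e at *
      generalize ((2 ^ t : ℕ) : ℝ) = T at *
      generalize ((2 ^ b : ℕ) : ℝ) = B at *
      calc e = e * 1 := (mul_one e).symm
        _ ≤ e * (δ * T) := mul_le_mul_of_nonneg_left h6 h8
        _ = δ * (e * T) := by ring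
        _ ≤ δ * B := mul_le_mul_of_nonneg_left h5 hδ.le
    · refine Filter.le_liminf_of_le (bdd_le Z C).isCoboundedUnder_ge ?_
      exact Filter.Eventually.of_forall fun n => dens_nonneg Z C n

end Pool.Agent.Results.MP_349b57_lc.OneSetRate
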